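import Pool.Agent.N425.KZ1

/-!
# Clique minors in maximal `d`-fold `k`-colourable graphs, `d` fixed

There is an absolute constant `c` such that every finite maximal `d`-fold `k`-colourable graph `G` satisfies
`h(G) ≥ χ(G) - c (d + 1) ^ 10`, and for every `E` satisfies `h(G) ≥ χ(G) + E` unless `G` consists of a clique
and a `c (d + 1) ^ 36 (E + 1) ^ 4`-colourable graph.  Here `h(G)` is the largest `m` such that `K_m` is a minor
of `G`.

Let `c_1, …, c_d` be distinct `k`-colourings of `G`.  By maximality two distinct vertices `v`, `w` that are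
not adjacent have the same colour in some `c_j`.  So the non-neighbours of `v` induce a `d`-colourable
graph (colour `w` with such a `j`), and the theorem `KZ.glob` on clique minors in graphs with `r`-colourable
non-neighbourhoods applies.
-/

set_option autoImplicit false

namespace Pool.Agent.Results.MP_d64b07_co.SurplusForFixedD

/-- `K_m` is a minor of `G`: there are `m` pairwise disjoint vertex sets, each inducing a connected
subgraph, with an edge of `G` between any two of them. -/
def HasCliqueMinor {U : Type} (G : SimpleGraph U) (m : ℕ) : Prop :=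
  ∃ B : Fin m → Set U,
    (∀ i, (G.induce (B i)).Connected) ∧
    (∀ i j, i ≠ j → Disjoint (B i) (B j)) ∧
    (∀ i j, i ≠ j → ∃ u ∈ B i, ∃ w ∈ B j, G.Adj u w)

/-- `G` has `d` proper colourings with `k` colours whose partitions of the vertices into colour classes are
pairwise different -/
def IsFold {V : Type} (G : SimpleGraph V) (d k : ℕ) : Prop :=
  ∃ c : Fin d → V → Fin k, (∀ i x y, G.Adj x y → c i x ≠ c i y) ∧
    ∀ i j, i ≠ j → ∃ x y, ¬ (c i x = c i y ↔ c j x = c j y)

/-- `G` is maximal `d`-fold `k`-colourable -/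
def IsMaxFold {V : Type} (G : SimpleGraph V) (d k : ℕ) : Prop :=
  IsFold G d k ∧ ∀ x y, x ≠ y → ¬ G.Adj x y → ¬ IsFold (G ⊔ SimpleGraph.edge x y) d k

theorem nn_colorable {V : Type} {G : SimpleGraph V} {d k : ℕ} (h : IsMaxFold G d k) (v : V) :
    (G.induce {w | w ≠ v ∧ ¬ G.Adj v w}).Colorable d := by
  classical
  obtain ⟨⟨c, hc, hd⟩, hmax⟩ := h
  have key : ∀ w : ↥{w | w ≠ v ∧ ¬ G.Adj v w}, ∃ j, c j v = c j w.1 := by
    rintro ⟨w, hwv, hn⟩
    by_contra hcon
    push Not at hcon
    apply hmax v w hwv.symm hn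
    refine ⟨c, ?_, hd⟩
    intro i x y hxy
    rw [SimpleGraph.sup_adj, SimpleGraph.edge_adj] at hxy
    rcases hxy with h1 | ⟨⟨rfl, rfl⟩ | ⟨rfl, rfl⟩, -⟩
    · exact hc i x y h1
    · exact hcon i
    · exact (hcon i).symm
  choose j hj using key
  refine ⟨SimpleGraph.Coloring.mk j (fun {a b} hab h1 => ?_)⟩
  have h2 : G.Adj a.1 b.1 := hab
  apply hc (j a) a.1 b.1 h2
  rw [← hj a, h1, ← hj b]

/-- **Clique minors in maximal `d`-fold `k`-colourable graphs.** -/
theorem result : ∃ c : ℕ, ∀ (d k E : ℕ) (V : Type) [Finite V] (G : SimpleGraph V), IsMaxFold G d k →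
      ((∃ K : Set V, G.IsClique K ∧ (G.induce Kᶜ).Colorable (c * ((d + 1) ^ 36 * (E + 1) ^ 4))) ∨
        ∀ m : ℕ, ¬ G.Colorable m → HasCliqueMinor G (m + 1 + E)) ∧
      ∀ m : ℕ, ¬ G.Colorable (m + c * (d + 1) ^ 10) → HasCliqueMinor G (m + 1) := by
  obtain ⟨c, hc⟩ := Pool.Agent.N425.KZ.glob
  refine ⟨c, ?_⟩
  intro d k E V _ G h
  exact hc d E V G (nn_colorable h)

end Pool.Agent.Results.MP_d64b07_co.SurplusForFixedD
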